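import Pool.Agent.H39.Newt.Stmts
import Pool.Agent.H75.Mono.ZE
import Pool.Agent.H75.Mono.RA
import Pool.Agent.H75.Mono.RB

/-! # Project NEWTON, module ZET: the motivic zeta function -/

set_option autoImplicit false

namespace Pool.Newt

open MvPolynomial Pool.Agent.H39.MonoR Pool.Agent.H75.Mono

section ZET

variable {k : Type} [Field k] [Algebra k ℂ] {σ I : Type} [Fintype σ] [Fintype I]

omit [Algebra k ℂ] in
theorem ZET_fpoly_congr (a : I → σ → ℕ) (c : I → k) {w w' : σ → ℕ}
    (h : face a w = face a w') : fpoly a c w = fpoly a c w' := by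
  unfold fpoly
  rw [h]

theorem ZET_aeval_free (a : I → σ → ℕ) (c : I → k) (u : σ → ℕ) (F : Finset σ)
    (hF : ∀ j ∈ F, ∀ i ∈ face a u, a i j = 0) (z z' : σ → ℂ) (hz : ∀ j, j ∉ F → z j = z' j) :
    aeval z (fpoly a c u) = aeval z' (fpoly a c u) ∧
      ∀ l, aeval z (pderiv l (fpoly a c u)) = aeval z' (pderiv l (fpoly a c u)) := by
  classical
  have key : ∀ (m : σ →₀ ℕ) (r : k), (∀ j ∈ F, m j = 0) →
      aeval z (monomial m r) = aeval z' (monomial m r) := by
    intro m r hm
    rw [aeval_monomial, aeval_monomial]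
    congr 1
    apply Finsupp.prod_congr
    intro j hj
    have : j ∉ F := fun h => (Finsupp.mem_support_iff.1 hj) (hm j h)
    rw [hz j this]
  constructor
  · unfold fpoly
    rw [map_sum, map_sum]
    refine Finset.sum_congr rfl fun i _ => ?_
    split_ifs with h
    · exact key _ _ fun j hj => by simpa using hF j hj i h
    · rw [map_zero, map_zero]
  · intro l
    unfold fpoly
    rw [map_sum, map_sum, map_sum]
    refine Finset.sum_congr rfl fun i _ => ?_
    split_ifs with h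
    · rw [pderiv_monomial]
      refine key _ _ fun j hj => ?_
      have := hF j hj i h
      simp only [Finsupp.coe_tsub, Pi.sub_apply, Finsupp.equivFunOnFinite_symm_apply_apply]
      omega
    · simp

omit [Fintype I] in
theorem ZET_icons_cyl [Fintype I] (a : I → σ → ℕ) (c : I → k) {M : ℕ} (u : σ → ℕ) (F : Finset σ)
    (d : ℕ) : ICons k {φ : σ × Fin M → ℂ | φ ∈ Cyl u F ∧ Hit (poly a c) d φ 1} := by
  have hco : ∀ (j : σ) (l : ℕ), PFun k (fun φ : σ × Fin M → ℂ =>
      PowerSeries.coeff l (arc φ j)) := by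
    intro j l
    have h := PFun.coeff_arcEval (k := k) (N := M) l (X j : MvPolynomial σ k)
      (φ := fun φ : σ × Fin M → ℂ => φ) PMap.id'
    have e : (fun x : σ × Fin M → ℂ => PowerSeries.coeff l (arcEval k x (X j : MvPolynomial σ k))) =
        fun φ : σ × Fin M → ℂ => PowerSeries.coeff l (arc φ j) := by
      funext x
      unfold arcEval
      rw [aeval_X]
    rw [e] at h
    exact h
  refine ICons.and ?_ (ICons.hit d (poly a c) PMap.id' PFun.one)
  show ICons k {φ : σ × Fin M → ℂ | ∀ j, (∀ l, l < u j → PowerSeries.coeff l (arc φ j) = 0) ∧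
    (j ∉ F → PowerSeries.coeff (u j) (arc φ j) ≠ 0)}
  apply ICons.forall_fin
  intro j
  refine ICons.and ?_ ?_
  · apply ICons.forall_lt
    intro l
    exact ICons.eq (hco j l) PFun.zero
  · by_cases hj : j ∈ F
    · have e : {φ : σ × Fin M → ℂ | j ∉ F → PowerSeries.coeff (u j) (arc φ j) ≠ 0} = Set.univ := by
        ext φ
        simp [hj]
      rw [e]
      exact ICons.univ
    · have e : {φ : σ × Fin M → ℂ | j ∉ F → PowerSeries.coeff (u j) (arc φ j) ≠ 0} =
          {φ : σ × Fin M → ℂ | PowerSeries.coeff (u j) (arc φ j) ≠ 0} := by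
        ext φ
        simp [hj]
      rw [e]
      exact ICons.ne (hco j (u j)) PFun.zero

theorem ZET_mul_sum {J : Type*} (s : Finset J) (g : J → M k) (x : M k) :
    ∑ j ∈ s, x * g j = x * ∑ j ∈ s, g j := (Finset.mul_sum s g x).symm

/-- the class of the arcs with `f(φ) = t^d` -/
theorem ZET_mo_hit (f : MvPolynomial σ k) {d M : ℕ} (hd : d < M) :
    mo k {φ : σ × Fin M → ℂ | Hit f d φ 1} =
      ↑(Lu k ^ ((Fintype.card σ * (M - 1) : ℕ) : ℤ)) * zt f d (tpt1 k) := by
  have h := mo_hit hd f (tpt1 k)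
  rw [Nat.card_eq_fintype_card] at h
  rw [← h]
  have hA : ICons k {φ : σ × Fin M → ℂ | Hit f d φ 1} := ICons.hit d f PMap.id' PFun.one
  have h1 := mo_graph (F := Unit) hA (f := fun _ => ()) PMap.toUnit
  rw [← h1]
  congr 1
  ext x
  simp only [Set.mem_ofPred_eq]
  constructor
  · rintro ⟨h, _⟩
    exact ⟨Set.mem_univ _, h⟩
  · rintro ⟨_, h⟩
    exact ⟨h, trivial⟩

end ZET

section GF

variable {R : Type 1} [CommRing R]

/-- the generating function of a box -/
noncomputable def ZET_G (x : Rˣ) {r : ℕ} (n N : Fin r → ℕ) (n0 N0 : ℕ) : PowerSeries R :=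
  PowerSeries.mk (fun d =>
      ∑ m ∈ (Fintype.piFinset fun _ : Fin r => Finset.range (d + 1)).filter
        (fun m => N0 + ∑ s, m s * N s = d), (↑(x ^ (-((n0 + ∑ s, m s * n s : ℕ) : ℤ))) : R))

/-- `∑_{e ≥ 1} x^(-e) T^e` -/
noncomputable def ZET_H (x : Rˣ) : PowerSeries R :=
  PowerSeries.mk (fun e => if e = 0 then 0 else (↑(x ^ (-(e : ℤ))) : R))

theorem ZET_H_eq (x : Rˣ) : den' x (-1, 1) * ZET_H x =
    PowerSeries.C (↑(x ^ (-1 : ℤ)) : R) * PowerSeries.X := by
  unfold den' ZET_H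
  ext n
  rw [sub_mul, one_mul, map_sub, mul_assoc, PowerSeries.coeff_C_mul, pow_one,
    PowerSeries.coeff_C_mul]
  rcases n with _ | n
  · simp
  · rw [PowerSeries.coeff_succ_X_mul, PowerSeries.coeff_mk, PowerSeries.coeff_mk,
      if_neg (Nat.succ_ne_zero n), PowerSeries.coeff_X]
    rcases n with _ | n
    · simp
    · rw [if_neg (Nat.succ_ne_zero n), if_neg (by omega), mul_zero, ← Units.val_mul, ← zpow_add]
      rw [sub_eq_zero]
      congr 2
      push_cast
      ring

theorem ZET_GH (x : Rˣ) {r : ℕ} (n N : Fin r → ℕ) (n0 N0 : ℕ) (hN : ∀ s, 0 < N s) (d : ℕ) :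
    PowerSeries.coeff d (ZET_G x n N n0 N0 * ZET_H x) =
      ∑ m ∈ (Fintype.piFinset fun _ : Fin r => Finset.range (d + 1)).filter
        (fun m => N0 + ∑ s, m s * N s < d),
        (↑(x ^ (-((n0 + ∑ s, m s * n s : ℕ) : ℤ) - ((d - (N0 + ∑ s, m s * N s) : ℕ) : ℤ))) : R) := by
  classical
  rw [PowerSeries.coeff_mul, Finset.Nat.sum_antidiagonal_eq_sum_range_succ
    (fun i j => PowerSeries.coeff i (ZET_G x n N n0 N0) * PowerSeries.coeff j (ZET_H x))]
  have hle : ∀ (m : Fin r → ℕ) (s : Fin r), m s ≤ N0 + ∑ s, m s * N s := by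
    intro m s
    have h1 : m s * N s ≤ ∑ s, m s * N s := Finset.single_le_sum (f := fun s => m s * N s)
      (fun _ _ => Nat.zero_le _) (Finset.mem_univ s)
    have h2 : m s ≤ m s * N s := Nat.le_mul_of_pos_right _ (hN s)
    omega
  have h1 : ∀ i ∈ Finset.range (d + 1), PowerSeries.coeff i (ZET_G x n N n0 N0) *
      PowerSeries.coeff (d - i) (ZET_H x) =
      ∑ m ∈ ((Fintype.piFinset fun _ : Fin r => Finset.range (d + 1)).filter
        (fun m => N0 + ∑ s, m s * N s ≤ d)).filter (fun m => N0 + ∑ s, m s * N s = i),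
        (↑(x ^ (-((n0 + ∑ s, m s * n s : ℕ) : ℤ))) : R) *
          PowerSeries.coeff (d - (N0 + ∑ s, m s * N s)) (ZET_H x) := by
    intro i hi
    rw [Finset.mem_range] at hi
    unfold ZET_G
    rw [PowerSeries.coeff_mk, Finset.sum_mul]
    have e : (Fintype.piFinset fun _ : Fin r => Finset.range (i + 1)).filter
        (fun m => N0 + ∑ s, m s * N s = i) =
        ((Fintype.piFinset fun _ : Fin r => Finset.range (d + 1)).filter
        (fun m => N0 + ∑ s, m s * N s ≤ d)).filter (fun m => N0 + ∑ s, m s * N s = i) := by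
      ext m
      simp only [Finset.mem_filter, Fintype.mem_piFinset, Finset.mem_range]
      constructor
      · rintro ⟨h1, h2⟩
        exact ⟨⟨fun s => by have := h1 s; omega, by omega⟩, h2⟩
      · rintro ⟨⟨h1, h2⟩, h3⟩
        exact ⟨fun s => by have := hle m s; omega, h3⟩
    rw [e]
    refine Finset.sum_congr rfl fun m hm => ?_
    rw [(Finset.mem_filter.1 hm).2]
  rw [Finset.sum_congr rfl h1, Finset.sum_fiberwise_of_maps_to (g := fun m : Fin r → ℕ =>
    N0 + ∑ s, m s * N s)]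
  · rw [← Finset.sum_filter_add_sum_filter_not _ (fun m => N0 + ∑ s, m s * N s < d),
      Finset.filter_filter, Finset.filter_filter]
    have e0 : (Fintype.piFinset fun _ : Fin r => Finset.range (d + 1)).filter
        (fun m => N0 + ∑ s, m s * N s ≤ d ∧ N0 + ∑ s, m s * N s < d) =
        (Fintype.piFinset fun _ : Fin r => Finset.range (d + 1)).filter
        (fun m => N0 + ∑ s, m s * N s < d) := by
      refine Finset.filter_congr fun m _ => ?_
      constructor
      · exact fun h => h.2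
      · exact fun h => ⟨h.le, h⟩
    rw [e0]
    have h2 : ∑ m ∈ (Fintype.piFinset fun _ : Fin r => Finset.range (d + 1)).filter
        (fun m => N0 + ∑ s, m s * N s ≤ d ∧ ¬ N0 + ∑ s, m s * N s < d),
        (↑(x ^ (-((n0 + ∑ s, m s * n s : ℕ) : ℤ))) : R) *
          PowerSeries.coeff (d - (N0 + ∑ s, m s * N s)) (ZET_H x) = 0 := by
      refine Finset.sum_eq_zero fun m hm => ?_
      have h3 := (Finset.mem_filter.1 hm).2
      have h4 : d - (N0 + ∑ s, m s * N s) = 0 := by omega
      rw [h4]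
      unfold ZET_H
      rw [PowerSeries.coeff_mk, if_pos rfl, mul_zero]
    rw [h2, add_zero]
    refine Finset.sum_congr rfl fun m hm => ?_
    have h3 := (Finset.mem_filter.1 hm).2
    unfold ZET_H
    rw [PowerSeries.coeff_mk, if_neg (by omega), ← Units.val_mul, ← zpow_add, ← sub_eq_add_neg]
  · intro m hm
    rw [Finset.mem_range]
    have := (Finset.mem_filter.1 hm).2
    omega

end GF

section Final

open Classical in
theorem sZet (hSta : SSta) (hDec : SDec) (hCla : SCla) (hClb : SClb) (hGfn : SGfn) : SZet := by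
  intro k _ _ σ I _ _ _ a c hndg
  obtain ⟨nB, b, hb⟩ := hSta σ I a
  obtain ⟨C, hC⟩ := hDec k σ I a c nB b hb
  have hAdm := hb.1
  -- the classes
  let A : Fin nB → M k := fun β =>
    mo k {z : σ → ℂ | (∀ j, j ∉ (b β).F → z j ≠ 0) ∧ aeval z (fpoly a c (b β).u) = 1}
  let B : Fin nB → M k := fun β =>
    mo k {z : σ → ℂ | (∀ j, j ∉ (b β).F → z j ≠ 0) ∧ aeval z (fpoly a c (b β).u) = 0}
  let n : ∀ β, Fin (b β).r → ℕ := fun β s => ∑ j, (b β).w s j
  let N : ∀ β, Fin (b β).r → ℕ := fun β s => Nw a ((b β).w s)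
  let n0 : Fin nB → ℕ := fun β => ∑ j, (b β).u j
  let N0 : Fin nB → ℕ := fun β => Nw a (b β).u
  have hNpos : ∀ β s, 0 < N β s := fun β s => ((hAdm β).1 s).2.1
  have hNpt : ∀ β m, Nw a ((b β).pt m) = N0 β + ∑ s, m s * N β s := fun β m =>
    (NBox.face_pt' (hAdm β) m).2
  have hfpt : ∀ β m, face a ((b β).pt m) = face a (b β).u := fun β m => (NBox.face_pt' (hAdm β) m).1
  have hnpt : ∀ β (m : Fin (b β).r → ℕ), ∑ j, (b β).pt m j = n0 β + ∑ s, m s * n β s := by
    intro β m
    simp only [NBox.pt, n0, n, Finset.sum_add_distrib, Finset.mul_sum]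
    rw [Finset.sum_comm]
  have hfp : ∀ β m, fpoly a c ((b β).pt m) = fpoly a c (b β).u := fun β m =>
    ZET_fpoly_congr a c (hfpt β m)
  -- the zeta function
  have main : Zmot k (poly a c) = ∑ β, (PowerSeries.C (A β) * ZET_G (Lu k) (n β) (N β) (n0 β) (N0 β) +
      PowerSeries.C (B β) * (ZET_G (Lu k) (n β) (N β) (n0 β) (N0 β) * ZET_H (Lu k))) := by
    rw [← Zt_pt1]
    ext d
    unfold Zt
    rw [PowerSeries.coeff_mk, map_sum]
    set M := C * (d + 1) + d + 2 with hM
    obtain ⟨hC1, hC2, hC3⟩ := hC d M (by omega)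
    have hdM : d < M := by omega
    let Y : Finset (Σ β : Fin nB, (Fin (b β).r → ℕ)) :=
      Finset.univ.sigma fun β => (Fintype.piFinset fun _ : Fin (b β).r =>
        Finset.range (d + 1)).filter (fun m => N0 β + ∑ s, m s * N β s ≤ d)
    have hY : ∀ β m, Nw a ((b β).pt m) ≤ d → (⟨β, m⟩ : Σ β : Fin nB, (Fin (b β).r → ℕ)) ∈ Y := by
      intro β m hm
      rw [hNpt] at hm
      simp only [Y, Finset.mem_sigma, Finset.mem_univ, true_and, Finset.mem_filter,
        Fintype.mem_piFinset, Finset.mem_range]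
      refine ⟨fun s => ?_, hm⟩
      have h1 : m s * N β s ≤ ∑ s, m s * N β s := Finset.single_le_sum
        (f := fun s => m s * N β s) (fun _ _ => Nat.zero_le _) (Finset.mem_univ s)
      have h2 : m s ≤ m s * N β s := Nat.le_mul_of_pos_right _ (hNpos β s)
      omega
    have hY' : ∀ y ∈ Y, Nw a ((b y.1).pt y.2) ≤ d := by
      rintro ⟨β, m⟩ hy
      simp only [Y, Finset.mem_sigma, Finset.mem_univ, true_and, Finset.mem_filter] at hy
      rw [hNpt]
      exact hy.2
    have h1 := ZET_mo_hit (poly a c) hdM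
    have e1 : {φ : σ × Fin M → ℂ | Hit (poly a c) d φ 1} = {φ : σ × Fin M → ℂ | ∃ y ∈ Y,
        φ ∈ {φ : σ × Fin M → ℂ | φ ∈ Cyl ((b y.1).pt y.2) (b y.1).F ∧ Hit (poly a c) d φ 1}} := by
      ext φ
      simp only [Set.mem_ofPred_eq]
      constructor
      · intro h
        obtain ⟨β, m, h2, h3⟩ := hC2 φ h
        exact ⟨⟨β, m⟩, hY β m h2, h3, h⟩
      · rintro ⟨y, _, _, h⟩
        exact h
    rw [e1, mo_biUnion Y (A := fun y => {φ : σ × Fin M → ℂ |
      φ ∈ Cyl ((b y.1).pt y.2) (b y.1).F ∧ Hit (poly a c) d φ 1})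
      (fun y _ => ZET_icons_cyl a c _ _ d)] at h1
    swap
    · intro y hy y' hy' hne
      rw [Set.disjoint_left]
      rintro φ ⟨h2, _⟩ ⟨h3, _⟩
      exact hne (hC3 φ y y' (hY' y hy) (hY' y' hy') h2 h3)
    -- the value of a piece
    have hpiece : ∀ y ∈ Y, mo k {φ : σ × Fin M → ℂ |
        φ ∈ Cyl ((b y.1).pt y.2) (b y.1).F ∧ Hit (poly a c) d φ 1} =
        ↑(Lu k ^ ((Fintype.card σ * (M - 1) : ℕ) : ℤ)) *
          (if N0 y.1 + ∑ s, y.2 s * N y.1 s = d then
            A y.1 * ↑(Lu k ^ (-((n0 y.1 + ∑ s, y.2 s * n y.1 s : ℕ) : ℤ)))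
          else B y.1 * ↑(Lu k ^ (-((n0 y.1 + ∑ s, y.2 s * n y.1 s : ℕ) : ℤ) -
            ((d - (N0 y.1 + ∑ s, y.2 s * N y.1 s) : ℕ) : ℤ)))) := by
      rintro ⟨β, m⟩ hy
      have h2 := hY' _ hy
      simp only at h2 ⊢
      have h3 := hC1 β m h2
      split_ifs with h4
      · have h5 := hCla k σ I a c ((b β).pt m) (b β).F d M (by rw [hNpt]; exact h4)
          (fun j => by have := h3 j; omega) hdM
        rw [h5, hfp, hnpt, sub_eq_add_neg, zpow_add, Units.val_mul]
        simp only [A]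
        ring
      · have hlt : Nw a ((b β).pt m) < d := lt_of_le_of_ne h2 (by rw [hNpt]; exact h4)
        have hnd : ∀ z : σ → ℂ, (∀ j, j ∉ (b β).F → z j ≠ 0) →
            aeval z (fpoly a c ((b β).pt m)) = 0 →
            ∃ l, aeval z (pderiv l (fpoly a c ((b β).pt m))) ≠ 0 := by
          intro z hz hz0
          rw [hfp] at hz0 ⊢
          obtain ⟨h6, h7⟩ := ZET_aeval_free a c (b β).u (b β).F (hAdm β).2 z
            (fun j => if j ∈ (b β).F then 1 else z j) (fun j hj => by simp [hj])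
          rw [h6] at hz0
          obtain ⟨l, hl⟩ := hndg (b β).u (fun j => if j ∈ (b β).F then 1 else z j)
            (fun j => by
              by_cases hj : j ∈ (b β).F
              · simp [hj]
              · simp [hj, hz j hj]) hz0
          exact ⟨l, by rw [h7]; exact hl⟩
        have h5 := hClb k σ I a c ((b β).pt m) (b β).F d M hlt h3 hdM hnd
        rw [hfp, hnpt, hNpt] at h5
        have h6 : mo k {φ : σ × Fin M → ℂ |
            φ ∈ Cyl ((b β).pt m) (b β).F ∧ Hit (poly a c) d φ 1} =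
            (mo k {φ : σ × Fin M → ℂ |
            φ ∈ Cyl ((b β).pt m) (b β).F ∧ Hit (poly a c) d φ 1} *
            ↑(Lu k ^ ((d - (N0 β + ∑ s, m s * N β s) : ℕ) : ℤ))) *
            ↑(Lu k ^ (-((d - (N0 β + ∑ s, m s * N β s) : ℕ) : ℤ))) := by
          rw [mul_assoc, ← Units.val_mul, ← zpow_add, add_neg_cancel, zpow_zero, Units.val_one,
            mul_one]
        rw [h6, h5, sub_eq_add_neg, zpow_add, Units.val_mul, sub_eq_add_neg, zpow_add,
          Units.val_mul]
        simp only [B]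
        ring
    rw [Finset.sum_congr rfl hpiece, ZET_mul_sum] at h1
    have h2 : zt (poly a c) d (tpt1 k) = ∑ y ∈ Y,
          (if N0 y.1 + ∑ s, y.2 s * N y.1 s = d then
            A y.1 * ↑(Lu k ^ (-((n0 y.1 + ∑ s, y.2 s * n y.1 s : ℕ) : ℤ)))
          else B y.1 * ↑(Lu k ^ (-((n0 y.1 + ∑ s, y.2 s * n y.1 s : ℕ) : ℤ) -
            ((d - (N0 y.1 + ∑ s, y.2 s * N y.1 s) : ℕ) : ℤ)))) :=
      ((Units.mul_right_inj _).1 h1).symm
    rw [h2]
    simp only [Y]
    rw [Finset.sum_sigma]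
    refine Finset.sum_congr rfl fun β _ => ?_
    rw [map_add, PowerSeries.coeff_C_mul, PowerSeries.coeff_C_mul, ZET_GH _ _ _ _ _ (hNpos β)]
    unfold ZET_G
    rw [PowerSeries.coeff_mk, Finset.sum_ite, Finset.filter_filter, Finset.filter_filter,
      ← ZET_mul_sum, ← ZET_mul_sum]
    congr 1
    · refine Finset.sum_congr (Finset.filter_congr fun m _ => ?_) fun _ _ => rfl
      constructor
      · exact fun h => h.2
      · exact fun h => ⟨h.le, h⟩
    · refine Finset.sum_congr (Finset.filter_congr fun m _ => ?_) fun _ _ => rfl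
      constructor
      · exact fun h => lt_of_le_of_ne h.1 h.2
      · exact fun h => ⟨h.le, h.ne⟩
  -- membership
  let R : Finset (σ → ℕ) := Finset.univ.image fun x : (Σ β : Fin nB, Fin (b β).r) => (b x.1).w x.2
  have hR : ∀ w ∈ R, Rigid a w ∧ 0 < Nw a w := by
    intro w hw
    simp only [R, Finset.mem_image, Finset.mem_univ, true_and] at hw
    obtain ⟨⟨β, s⟩, rfl⟩ := hw
    exact ⟨((hAdm β).1 s).1, ((hAdm β).1 s).2.1⟩
  refine ⟨R, hR, ?_⟩
  set S : Set (ℤ × ℕ) := {((-1 : ℤ), (1 : ℕ))} ∪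
        {p | ∃ w ∈ R, p = (-((∑ j, w j : ℕ) : ℤ), Nw a w)} with hS
  have hSpos : ∀ p ∈ S, 0 < p.2 := by
    rintro p (hp | ⟨w, hw, rfl⟩)
    · rw [Set.mem_singleton_iff] at hp
      rw [hp]
      exact one_pos
    · exact (hR w hw).2
  have hH : ZET_H (Lu k) ∈ RS k S := by
    refine RatF.mem_RS (T := Unit) (F := fun _ => ZET_H (Lu k)) hSpos ?_ ()
    refine ⟨{(-1, 1)}, ?_, 2, fun _ m hm => ?_⟩
    · intro p hp
      rw [Multiset.mem_singleton] at hp
      rw [hp]
      exact Or.inl rfl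
    · rw [Multiset.map_singleton, Multiset.prod_singleton, ZET_H_eq, PowerSeries.coeff_C_mul,
        PowerSeries.coeff_X, if_neg (by omega), mul_zero]
  have hG : ∀ β, ZET_G (Lu k) (n β) (N β) (n0 β) (N0 β) ∈ RS k S := by
    intro β
    refine RatF.mem_RS (T := Unit) (F := fun _ => ZET_G (Lu k) (n β) (N β) (n0 β) (N0 β)) hSpos ?_ ()
    refine ⟨(Finset.univ : Finset (Fin (b β).r)).val.map fun s => (-(n β s : ℤ), N β s), ?_,
      N0 β + 1, fun _ m hm => ?_⟩
    · intro p hp
      rw [Multiset.mem_map] at hp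
      obtain ⟨s, _, rfl⟩ := hp
      refine Or.inr ⟨(b β).w s, ?_, rfl⟩
      simp only [R, Finset.mem_image, Finset.mem_univ, true_and]
      exact ⟨⟨β, s⟩, rfl⟩
    · have h1 := hGfn (M k) (Lu k) (b β).r (n β) (N β) (n0 β) (N0 β) (hNpos β)
      rw [Multiset.map_map]
      have h2 : ((Finset.univ : Finset (Fin (b β).r)).val.map
          (den' (Lu k) ∘ fun s => (-(n β s : ℤ), N β s))).prod =
          ∏ s, den' (Lu k) (-(n β s : ℤ), N β s) := rfl
      rw [h2]
      unfold ZET_G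
      rw [h1, PowerSeries.coeff_C_mul, PowerSeries.coeff_X_pow, if_neg (by omega), mul_zero]
  rw [main]
  refine sum_mem fun β _ => add_mem (mul_mem ?_ (hG β)) (mul_mem ?_ (mul_mem (hG β) hH))
  · exact (RS k S).algebraMap_mem (A β)
  · exact (RS k S).algebraMap_mem (B β)

end Final

end Pool.Newt
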